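import Pool.Agent.Helper36.TC.Defs

/-! # Symmetry of Birkhoff orthogonality from a dense set (module SymDense of MP_9e79c9_gt) -/

set_option autoImplicit false
set_option linter.unusedSectionVars false

open MeasureTheory Set Metric Module
open scoped Topology

namespace TC

variable {V : Type*} [NormedAddCommGroup V] [NormedSpace ℝ V]

/-- convexity along a line: a value at `η` bigger than the value at `s` propagates to the left. -/
theorem symdense_convex (y q : V) {η s τ : ℝ} (hηs : η < s) (hτ : τ ≤ η)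
    (hlt : ‖y + s • q‖ < ‖y + η • q‖) : ‖y + s • q‖ < ‖y + τ • q‖ := by
  by_contra hcon
  push Not at hcon
  have hsτ : 0 < s - τ := by linarith
  have hl0 : 0 ≤ (η - τ) / (s - τ) := div_nonneg (by linarith) hsτ.le
  have hl1 : (η - τ) / (s - τ) ≤ 1 := (div_le_one hsτ).2 (by linarith)
  set l : ℝ := (η - τ) / (s - τ) with hl
  have hlm : l * (s - τ) = η - τ := by rw [hl]; field_simp
  have hη : η = (1 - l) * τ + l * s := by linarith [hlm, mul_sub l s τ]
  have heq : y + η • q = (1 - l) • (y + τ • q) + l • (y + s • q) := by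
    rw [hη]
    module
  have h1 : ‖y + η • q‖ ≤ (1 - l) * ‖y + τ • q‖ + l * ‖y + s • q‖ := by
    rw [heq]
    refine (norm_add_le _ _).trans ?_
    rw [norm_smul, norm_smul, Real.norm_of_nonneg (by linarith : (0 : ℝ) ≤ 1 - l),
      Real.norm_of_nonneg hl0]
  have h2 : (1 - l) * ‖y + τ • q‖ ≤ (1 - l) * ‖y + s • q‖ :=
    mul_le_mul_of_nonneg_left hcon (by linarith)
  nlinarith

theorem symdense_core (h : ∀ p : V, ∀ ε : ℝ, 0 < ε → ∃ q : V, ‖q - p‖ < ε ∧
      ∃ f : V →L[ℝ] ℝ, Supp f q ∧ ∀ u : V, f u = 0 → Perp u q)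
    {p y : V} (hp : Perp p y) {s : ℝ} (hs : 0 < s) : ‖y‖ ≤ ‖y + s • p‖ := by
  by_contra hcon
  push Not at hcon
  have hp0 : 0 < ‖p‖ := by
    rw [norm_pos_iff]
    intro h0
    rw [h0] at hcon
    simp at hcon
  -- choose η
  have hcont : ContinuousAt (fun τ : ℝ => ‖y + τ • p‖) 0 := by
    apply Continuous.continuousAt
    fun_prop
  have hev : ∀ᶠ τ in 𝓝 (0 : ℝ), ‖y + s • p‖ < ‖y + τ • p‖ := by
    have h0 : ‖y + s • p‖ < ‖y + (0 : ℝ) • p‖ := by simpa using hcon
    exact hcont.eventually (lt_mem_nhds h0)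
  obtain ⟨r, hr, hball⟩ := Metric.eventually_nhds_iff.1 hev
  obtain ⟨η, hη0, hηs, hηr⟩ : ∃ η : ℝ, 0 < η ∧ η < s ∧ η < r := by
    refine ⟨min s r / 2, ?_, ?_, ?_⟩
    · have := lt_min hs hr
      linarith
    · have := lt_min hs hr
      have := min_le_left s r
      linarith
    · have := lt_min hs hr
      have := min_le_right s r
      linarith
  have hη : ‖y + s • p‖ < ‖y + η • p‖ := by
    apply hball
    rw [Real.dist_eq, sub_zero, abs_of_pos hη0]
    exact hηr
  set g : ℝ := ‖y + η • p‖ - ‖y + s • p‖ with hg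
  have hg0 : 0 < g := by rw [hg]; linarith
  have hδ : 0 < g / (2 * s) := by positivity
  -- nearby points
  have hnear : ∀ q : V, ‖q - p‖ < g / (2 * s) → ‖y + s • q‖ < ‖y + η • q‖ := by
    intro q hq
    have e1 : ‖y + s • q‖ ≤ ‖y + s • p‖ + s * ‖q - p‖ := by
      have : y + s • q = (y + s • p) + s • (q - p) := by module
      rw [this]
      refine (norm_add_le _ _).trans ?_
      rw [norm_smul, Real.norm_of_nonneg hs.le]
    have e2 : ‖y + η • p‖ ≤ ‖y + η • q‖ + η * ‖q - p‖ := by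
      have : y + η • p = (y + η • q) - η • (q - p) := by module
      rw [this]
      refine (norm_sub_le _ _).trans ?_
      rw [norm_smul, Real.norm_of_nonneg hη0.le]
    have e3 : η * ‖q - p‖ ≤ s * ‖q - p‖ := mul_le_mul_of_nonneg_right hηs.le (norm_nonneg _)
    have e4 : 2 * s * ‖q - p‖ < g := by
      rw [lt_div_iff₀ (by positivity)] at hq
      linarith
    rw [hg] at e4
    linarith
  -- choose t
  have hy1 : 0 < ‖y‖ + 1 := by positivity
  obtain ⟨t, ht0, ht1, ht2, ht3, ht4⟩ : ∃ t : ℝ, 0 < t ∧ t ≤ 1 ∧ t * (‖y‖ + 1) < g / (2 * s) ∧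
      t < η * ‖p‖ / 8 ∧ t * (‖y‖ + 1) ≤ ‖p‖ / 2 := by
    have a1 : 0 < g / (2 * s) / (‖y‖ + 1) := by positivity
    have a2 : 0 < η * ‖p‖ / 8 := by positivity
    have a3 : 0 < ‖p‖ / 2 / (‖y‖ + 1) := by positivity
    set m : ℝ := min (min 1 (g / (2 * s) / (‖y‖ + 1))) (min (η * ‖p‖ / 8) (‖p‖ / 2 / (‖y‖ + 1)))
      with hm
    have hm0 : 0 < m := lt_min (lt_min one_pos a1) (lt_min a2 a3)
    have hm1 : m ≤ 1 := (min_le_left _ _).trans (min_le_left _ _)
    have hm2 : m ≤ g / (2 * s) / (‖y‖ + 1) := (min_le_left _ _).trans (min_le_right _ _)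
    have hm3 : m ≤ η * ‖p‖ / 8 := (min_le_right _ _).trans (min_le_left _ _)
    have hm4 : m ≤ ‖p‖ / 2 / (‖y‖ + 1) := (min_le_right _ _).trans (min_le_right _ _)
    refine ⟨m / 2, by positivity, by linarith, ?_, by linarith, ?_⟩
    · have : m / 2 < g / (2 * s) / (‖y‖ + 1) := by linarith
      rwa [lt_div_iff₀ hy1] at this
    · have : m / 2 ≤ ‖p‖ / 2 / (‖y‖ + 1) := by linarith
      rwa [le_div_iff₀ hy1] at this
  obtain ⟨q, hq, f, hf, hperp⟩ := h (p + t • y) (t ^ 2) (by positivity)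
  have hqp : ‖q - p‖ ≤ t * (‖y‖ + 1) := by
    have : q - p = t • y + (q - (p + t • y)) := by module
    rw [this]
    refine (norm_add_le _ _).trans ?_
    rw [norm_smul, Real.norm_of_nonneg ht0.le]
    nlinarith
  have hq0 : ‖p‖ / 2 ≤ ‖q‖ := by
    have : ‖p‖ ≤ ‖q‖ + ‖q - p‖ := by
      have e : p = q - (q - p) := by module
      calc ‖p‖ = ‖q - (q - p)‖ := by rw [← e]
        _ ≤ ‖q‖ + ‖q - p‖ := norm_sub_le _ _
    linarith
  have hqpos : 0 < ‖q‖ := by linarith
  have hfu : f (y - (f y / ‖q‖) • q) = 0 := by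
    rw [map_sub, map_smul, hf.2, smul_eq_mul]
    field_simp
    ring
  have hle : ‖y + (-(f y / ‖q‖)) • q‖ ≤ ‖y + s • q‖ := by
    have h1 := hperp _ hfu (s + f y / ‖q‖)
    have e1 : y - (f y / ‖q‖) • q + (s + f y / ‖q‖) • q = y + s • q := by module
    have e2 : y - (f y / ‖q‖) • q = y + (-(f y / ‖q‖)) • q := by module
    rw [e1, e2] at h1
    exact h1
  have hτ : η < -(f y / ‖q‖) := by
    by_contra hc
    push Not at hc
    have := symdense_convex y q hηs hc (hnear q (hqp.trans_lt ht2))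
    linarith
  have hfy : f y < -(η * ‖p‖ / 2) := by
    have h1 : f y / ‖q‖ < -η := by linarith
    rw [div_lt_iff₀ hqpos] at h1
    have h2 : η * (‖p‖ / 2) ≤ η * ‖q‖ := mul_le_mul_of_nonneg_left hq0 hη0.le
    nlinarith
  have hfp : f p ≤ ‖p‖ := hf.le p
  have hfq : ‖p‖ - t ^ 2 ≤ f q := by
    rw [hf.2]
    have h1 : ‖p‖ ≤ ‖p + t • y‖ := hp t
    have h2 : ‖p + t • y‖ ≤ ‖q‖ + ‖q - (p + t • y)‖ := by
      have e : p + t • y = q - (q - (p + t • y)) := by module
      calc ‖p + t • y‖ = ‖q - (q - (p + t • y))‖ := by rw [← e]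
        _ ≤ _ := norm_sub_le _ _
    linarith
  have hfe : |f (q - (p + t • y))| ≤ t ^ 2 := (hf.abs_le _).trans hq.le
  have hfe' : f (q - (p + t • y)) = f q - f p - t * f y := by
    rw [map_sub, map_add, map_smul, smul_eq_mul]
    ring
  rw [hfe'] at hfe
  have h1 := (abs_le.1 hfe).2
  have h2 : -(2 * t ^ 2) ≤ t * f y := by linarith
  have h3 : -(2 * t) ≤ f y := by
    by_contra hc
    push Not at hc
    have : t * f y < t * (-(2 * t)) := mul_lt_mul_of_pos_left hc ht0
    nlinarith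
  have h4 : 0 < η * ‖p‖ := by positivity
  linarith

theorem sym_of_dense (h : ∀ p : V, ∀ ε : ℝ, 0 < ε → ∃ q : V, ‖q - p‖ < ε ∧
      ∃ f : V →L[ℝ] ℝ, Supp f q ∧ ∀ u : V, f u = 0 → Perp u q) :
    SymPerp V := by
  intro p y hpy s
  rcases lt_trichotomy s 0 with hs | hs | hs
  · have hpy' : Perp p (-y) := by
      intro t
      have := hpy (-t)
      simpa using this
    have h1 := symdense_core h hpy' (s := -s) (by linarith)
    have e : -y + (-s) • p = -(y + s • p) := by module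
    rw [e, norm_neg, norm_neg] at h1
    exact h1
  · simp [hs]
  · exact symdense_core h hpy hs

end TC
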